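import Pool.Agent.ExpMax.MAIN2
import Pool.Agent.ExpMax.INV
import Pool.Agent.ExpMax.BASIC
import Pool.Agent.ExpMax.ROTD
import Pool.Agent.ExpMax.ODEAN
import Pool.Agent.ExpMax.DECAY
import Pool.Agent.ExpMax.EXTC
import Pool.Agent.ExpMax.TT
import Pool.Agent.ExpMax.MAXPT
import Pool.Agent.ExpMax.ORTH
import Pool.Agent.ExpMax.PTW
import Pool.Agent.ExpMax.RNEAR
import Pool.Agent.ExpMax.RFAR
import Pool.Agent.ExpMax.IP
import Pool.Agent.ExpMax.HEART
import Pool.Agent.ExpMax.CASEA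
import Pool.Agent.ExpMax.NUM
import Pool.Agent.ExpMax.VPROP
import Pool.Agent.ExpMax.ELL
import Pool.Agent.ExpMax.NORMS
import Pool.Agent.ExpMax.SLICE
import Pool.Agent.ExpMax.BLOW

set_option autoImplicit false

open MeasureTheory

namespace Pool.Agent.Results.MP_9044d4_an.LargeExponents

open Pool.Agent.ExpMax

/-- For every `d ≥ 1` and all large real `p`: on every nondegenerate section of the cone (for
`d = 1`: other than a hyperbola) the function `exp(-|τ|)` is a maximizer if and only if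
`β = 0`; more precisely the maximizers are exactly the nonzero multiples of the characters
if `|β| < |α|`, and there is no maximizer if `|α| ≤ |β|`. -/
theorem result (d : ℕ) (hd : 1 ≤ d) : ∃ p₀ : ℝ, ∀ p : ℝ, p₀ ≤ p → ∀ α β γ : ℝ,
    (α, β) ≠ (0, 0) → (γ ≠ 0 ∨ |α| < |β|) → (d = 1 → |β| ≤ |α|) →
    (IsMaximizer α β γ p (expTau : Pt d → ℂ) ↔ β = 0) ∧
    ∀ f : Pt d → ℂ, IsMaximizer α β γ p f ↔
      |β| < |α| ∧ ∃ (b : ℂ) (y : Pt d), b ≠ 0 ∧ f =ᵐ[sectionMeasure α β γ d] charFun b y := by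
  have hI := tINV
  have hB := tBASIC hI
  have hE := tEXTC hI
  have hD := tDECAY hI hB (tROTD hI) tODEAN
  have hCore := tCORE2 hI hB hD hE (tTT hI hB hE) (tMAXPT hI hE) (tORTH hI hB) tIP
    (tHEART tPTW tRNEAR tRFAR tIP) tCASEA tNUM (tVPROP hI hB hE) tNORMAL2
  obtain ⟨p₀, hp₀⟩ := tMAIN2 hI hB hCore (tELL tSLICE) tNORMS tBLOW d hd
  refine ⟨p₀, fun p hp α β γ h1 h2 h3 => ?_⟩
  obtain ⟨i1, i2, i3⟩ := hp₀ p hp α β γ h1 h2 h3
  refine ⟨i1, fun f => ?_⟩
  rcases lt_or_ge |β| |α| with h | h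
  · rw [(i2 h).2 f]
    exact ⟨fun h' => ⟨h, h'⟩, fun h' => h'.2⟩
  · constructor
    · rintro ⟨-, -, h4, -⟩
      rw [i3 h] at h4
      exact absurd h4 (lt_irrefl _)
    · rintro ⟨h4, -⟩
      exact absurd h4 (not_lt.2 h)

end Pool.Agent.Results.MP_9044d4_an.LargeExponents
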