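import Pool.Agent.SPH4.ROT
import Pool.Agent.SPH4.PAIR
import Pool.Agent.SPH4.GLOB
import Pool.Agent.SPH4.IBP
import Pool.Agent.SPH4.SPEC
import Pool.Agent.SPH4.MAXP
import Pool.Agent.SPH4.FLOW
import Pool.Agent.SPH4.SQ
import Pool.Agent.SPH4.DER
import Pool.Agent.SPH4.ALG
import Pool.Agent.SPH4.QUAD
import Pool.Agent.SPH4.NEAR
import Pool.Agent.SPH4.BESS
import Pool.Agent.SPH4.FOU4
import Pool.Agent.SPH4.ZN
import Pool.Agent.SPH4.EST1
import Pool.Agent.SPH4.EST2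
import Pool.Agent.SPH4.MONO
import Pool.Agent.SPH4.MULTI
import Pool.Agent.SPH4.CONT
import Pool.Agent.SPH4.EXT4
import Pool.Agent.SPH4.CORE4
import Pool.Agent.SPH4.FIN4
import Pool.Agent.SymM.REFL
import Pool.Agent.SymM.STAR
import Pool.Agent.SymM.CONT
import Pool.Agent.SymM.POS
import Pool.Agent.SymM.EQ
import Pool.Agent.SymM.SYM
import Pool.Agent.SymM.LONE
import Pool.Agent.SymM.OBL

set_option autoImplicit false

/-!
# The exponent `4`: all spheres, ellipsoids and oblique hyperboloids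
-/

open MeasureTheory

namespace Pool.Agent.Results.MP_9044d4_an.QuarticSpheres

open Pool.Agent.ExpMax

/-- Let `p = 4` and `d ≥ 2`. On every section with `α ≠ 0`, `γ ≠ 0` and `|α| ≠ |β|` (an ellipsoid
if `|β| < |α|`, a hyperboloid if `|β| > |α|`) the function `exp(-|τ|)` is a maximizer if and only if
`β = 0`, that is, if and only if the section is a round sphere `S^d`, `|τ| = |γ / α|`. -/
theorem result (d : ℕ) (hd : 2 ≤ d) (α β γ : ℝ) (hα : α ≠ 0) (hγ : γ ≠ 0) (hne : |α| ≠ |β|) :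
    IsMaximizer α β γ 4 (expTau : Pt d → ℂ) ↔ β = 0 := by
  have hIBP := SPH4.p_IBP (SPH4.p_PAIR SPH4.p_ROT) (SPH4.p_GLOB SPH4.p_ROT)
  have hFLOW := SPH4.p_FLOW SPH4.p_SPEC SPH4.p_MAXP SPH4.p_ROT
  have hDER := SPH4.p_DER SPH4.p_SQ hIBP
  have hNEAR := SPH4.p_NEAR (SPH4.p_QUAD SPH4.p_ALG)
  have hZN := SPH4.p_ZN
  have hBESS := SPH4.p_BESS
  have hMONO := SPH4.p_MONO hDER hNEAR (SPH4.p_EST1 hZN) (SPH4.p_EST2 hZN hBESS)
  have hEXT := SPH4.p_EXT4 (SPH4.p_CONT (SPH4.p_MULTI hFLOW hMONO)) SPH4.p_FOU4 hZN hBESS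
  have hFIN := SPH4.p_FIN4 (SPH4.p_CORE4 hEXT hBESS)
  have hR := SymM.p_REFL
  have hC := SymM.p_CONT
  have hS := SymM.p_SYM (SymM.p_STAR hR) hC (SymM.p_POS hC) SymM.p_EQ
  have hO := SymM.p_OBL hS SymM.p_LONE
  constructor
  · intro h
    by_contra hβ
    exact hO d α β γ 4 (by omega) hα hβ hγ hne (by norm_num) h
  · rintro rfl
    exact hFIN d hd α γ hα hγ

end Pool.Agent.Results.MP_9044d4_an.QuarticSpheres
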