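import Pool.Agent.TRC.P_I4
import Pool.Agent.TRC.P_IQ
import Pool.Agent.TRC.P_RL
import Pool.Agent.TRC.P_WK
import Pool.Agent.TRC.P_INJ
import Pool.Agent.TRC.P_STR
import Pool.Agent.TRC.P_BL
import Pool.Agent.TRC.P_MOD
import Pool.Agent.TRC.P_EXI
import Pool.Agent.TRC.P_SYR
import Pool.Agent.TRC.P_EUL
import Pool.Agent.TRC.P_REM
import Pool.Agent.TRC.P_LIM
import Pool.Agent.TRC.P_DIF
import Pool.Agent.TRC.P_ROP
import Pool.Agent.TRC.P_ORB
import Pool.Agent.TRC.P_BAR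
import Pool.Agent.TRC.P_GEO
import Pool.Agent.TRC.P_TRA
import Pool.Agent.TRC.P_RDF
import Pool.Agent.TRC.P_BES
import Pool.Agent.TRC.P_RDI
import Pool.Agent.TRC.P_TAI
import Pool.Agent.TRC.P_DEC
import Pool.Agent.TRC.P_ITG
import Pool.Agent.TRC.P_TLR
import Pool.Agent.TRC.P_IDN
import Pool.Agent.TRC.P_PRT
import Pool.Agent.TRC.P_BIG
import Pool.Agent.TRC.P_ENG
import Pool.Agent.TRC.P_VA3
import Pool.Agent.TRC.P_VA4
import Pool.Agent.TRC.P_VA5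
import Pool.Agent.TRC.P_VA6
import Pool.Agent.TRC.P_VA7
import Pool.Agent.TRC.P_A46
import Pool.Agent.TRC.P_KI3
import Pool.Agent.TRC.P_KI4
import Pool.Agent.TRC.P_KI5
import Pool.Agent.TRC.P_KI6
import Pool.Agent.TRC.P_KI7
import Pool.Agent.TRC.P_PW
import Pool.Agent.TRC.P_HRM
import Pool.Agent.TRC.P_LBD
import Pool.Agent.TRC.P_NN3
import Pool.Agent.TRC.P_NN4
import Pool.Agent.TRC.P_NN5
import Pool.Agent.TRC.P_NN6
import Pool.Agent.TRC.P_NN7
import Pool.Agent.TRC.P_EN3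
import Pool.Agent.TRC.P_EN7
import Pool.Agent.TRC.P_FNP
import Pool.Agent.TRC.Main
import Pool.Agent.SPH4.ROT
import Pool.Agent.SPH4.PAIR
import Pool.Agent.SPH4.GLOB
import Pool.Agent.SPH4.IBP
import Pool.Agent.SPH4.SPEC
import Pool.Agent.SPH4.MAXP
import Pool.Agent.SPH4.FLOW
import Pool.Agent.SPH4.SQ
import Pool.Agent.SPH4.DER
import Pool.Agent.SPH4.ALG
import Pool.Agent.SPH4.QUAD
import Pool.Agent.SPH4.NEAR
import Pool.Agent.SPH4.BESS
import Pool.Agent.SPH4.FOU4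
import Pool.Agent.SPH4.ZN
import Pool.Agent.SPH4.EST1
import Pool.Agent.SPH4.EST2
import Pool.Agent.SPH4.MONO
import Pool.Agent.SPH4.MULTI
import Pool.Agent.SPH4.CONT
import Pool.Agent.SPH4.EXT4
import Pool.Agent.SPH4.CORE4
import Pool.Agent.SymM.REFL
import Pool.Agent.SymM.STAR
import Pool.Agent.SymM.CONT
import Pool.Agent.SymM.POS
import Pool.Agent.SymM.EQ
import Pool.Agent.SymM.SYM
import Pool.Agent.SymM.LONE
import Pool.Agent.SymM.OBL

set_option autoImplicit false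

/-!
# All real exponents `p ≥ 6` on the spheres `S^2, ..., S^6`
-/

open MeasureTheory

namespace Pool.Agent.Results.MP_9044d4_an.RealExponents

open Pool.Agent.ExpMax Pool.Agent.TRC

/-- Let `2 ≤ d ≤ 6` and let `p ≥ 6` be any real number. On every section with `α ≠ 0`, `γ ≠ 0` and
`|α| ≠ |β|` (an ellipsoid if `|β| < |α|`, a hyperboloid if `|β| > |α|`) the function `exp(-|τ|)` is
a maximizer if and only if `β = 0`, that is, if and only if the section is a round sphere `S^d`,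
`|τ| = |γ / α|`. -/
theorem result (d : ℕ) (hd : 2 ≤ d) (hd6 : d ≤ 6) (p : ℝ) (hp : 6 ≤ p) (α β γ : ℝ) (hα : α ≠ 0)
    (hγ : γ ≠ 0) (hne : |α| ≠ |β|) :
    IsMaximizer α β γ p (expTau : Pt d → ℂ) ↔ β = 0 := by
  have hIBP := SPH4.p_IBP (SPH4.p_PAIR SPH4.p_ROT) (SPH4.p_GLOB SPH4.p_ROT)
  have hFLOW := SPH4.p_FLOW SPH4.p_SPEC SPH4.p_MAXP SPH4.p_ROT
  have hDER := SPH4.p_DER SPH4.p_SQ hIBP
  have hNEAR := SPH4.p_NEAR (SPH4.p_QUAD SPH4.p_ALG)
  have hZN := SPH4.p_ZN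
  have hBESS := SPH4.p_BESS
  have hMONO := SPH4.p_MONO hDER hNEAR (SPH4.p_EST1 hZN) (SPH4.p_EST2 hZN hBESS)
  have hEXT := SPH4.p_EXT4 (SPH4.p_CONT (SPH4.p_MULTI hFLOW hMONO)) SPH4.p_FOU4 hZN hBESS
  have hI4 := p_I4 (SPH4.p_CORE4 hEXT hBESS)
  have hIQ := p_IQ hI4
  have hRL := p_RL hIQ
  have hWK := p_WK
  have hINJ := p_INJ
  have hSTR := p_STR hINJ
  have hMOD := p_MOD
  have hEXI := p_EXI hIQ hWK p_BL hMOD
  have hSYR := p_SYR hIQ
  have hEUL := p_EUL hIQ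
  have hREM := p_REM hIQ
  have hLIM := p_LIM hIQ hWK hINJ hSTR hREM
  have hDIF := p_DIF
  have hROP := p_ROP
  have hORB := p_ORB hMOD hDIF hROP
  have hDRV := p_DRV hIQ hORB hEUL hLIM
  have hTRA := p_TRA hIQ hEUL hDRV
  have hBAR := p_BAR hRL hDIF hINJ
  have hALT := p_ALT hIQ hEXI hSYR hBAR hMOD hDIF (p_RDF hDIF) p_GEO hTRA
  have hTAI := p_TAI
  have hDEC := p_DEC hTAI
  have hITG := p_ITG hDEC
  have hTLR := p_TLR hTAI hITG
  have hIDN := p_IDN hDEC hITG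
  have hBIG := p_BIG hITG hIDN p_PRT
  have hENG := p_ENG
  have hVA3 := p_VA3 hENG hTLR
  have hVA4 := p_VA4 hENG hTLR
  have hVA5 := p_VA5 hENG hTLR
  have hVA6 := p_VA6 hENG hTLR
  have hVA7 := p_VA7 hENG hTLR
  have hG : ∀ n, 3 ≤ n → n ≤ 7 → Bg n := by
    intro n h3 h7
    interval_cases n
    · exact p_KI3 hBIG hVA3 hENG
    · exact p_KI4 hBIG hVA4
    · exact p_KI5 hBIG hVA5 hENG
    · exact p_KI6 hBIG hVA6 hENG
    · exact p_KI7 hBIG hVA7 hENG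
  have hPW := p_PW
  have hHRM := p_HRM
  have hLBD := p_LBD hHRM hITG
  have hM : ∀ n, 3 ≤ n → n ≤ 7 → Mid n := by
    intro n h3 h7
    interval_cases n
    · exact p_NN3 hPW hHRM hLBD hVA3 p_A46 p_EN3
    · exact p_NN4 hPW hLBD hVA4 hITG
    · exact p_NN5 hPW hHRM hLBD hVA5
    · exact p_NN6 hPW hLBD hVA6 hITG
    · exact p_NN7 hPW hLBD hVA7 p_EN7 hITG
  have hR := SymM.p_REFL
  have hC := SymM.p_CONT
  have hS := SymM.p_SYM (SymM.p_STAR hR) hC (SymM.p_POS hC) SymM.p_EQ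
  have hO := SymM.p_OBL hS SymM.p_LONE
  constructor
  · intro h
    by_contra hβ
    exact hO d α β γ p (by omega) hα hβ hγ hne (by linarith) h
  · rintro rfl
    exact main_of hI4 hIQ hALT p_RDI p_BES hM hG p_FNP d hd hd6 p hp α γ hα hγ

end Pool.Agent.Results.MP_9044d4_an.RealExponents
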