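import Pool.Agent.SymM.REFL
import Pool.Agent.SymM.STAR
import Pool.Agent.SymM.CONT
import Pool.Agent.SymM.POS
import Pool.Agent.SymM.EQ
import Pool.Agent.SymM.SYM
import Pool.Agent.SymM.LONE
import Pool.Agent.SymM.OBL
import Pool.Agent.SymM.HYP
import Pool.Agent.SymM.NRM
import Pool.Agent.SymM.EL
import Pool.Agent.SymM.UPR
import Pool.Agent.SymM.CV
import Pool.Agent.SymM.ID
import Pool.Agent.SymM.IX
import Pool.Agent.SymM.GT
import Pool.Agent.SymM.SQ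
import Pool.Agent.SymM.LRHO
import Pool.Agent.SymM.MEL
import Pool.Agent.SymM.LARGE
import Pool.Agent.SymM.KNAPP
import Pool.Agent.SymM.FIN

set_option autoImplicit false

/-!
# Maximizers on sections with a center
-/

open MeasureTheory

namespace Pool.Agent.Results.MP_9044d4_an.SymmetricMaximizers

open Pool.Agent.ExpMax

/-- The point reflection `ζ ↦ 2 C - ζ`, where
`C = (-γ α / (α ^ 2 - β ^ 2), γ β / (α ^ 2 - β ^ 2), 0)` is the center of the section. -/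
noncomputable def refl (α β γ : ℝ) {d : ℕ} (ζ : Pt d) : Pt d :=
  ((-(2 * (γ * α)) / (α ^ 2 - β ^ 2), 2 * (γ * β) / (α ^ 2 - β ^ 2), 0) : Pt d) - ζ

/-- Let `d ≥ 1`. (1) On a section with a center (`|α| ≠ |β|`) every integrable maximizer `f` for an
exponent `p > 2` is symmetric: `conj f(2C - ζ) = θ f(ζ)` almost everywhere for a constant `θ`
with `|θ| = 1`. (2) If `α β γ ≠ 0` and `|α| ≠ |β|` then `exp(-|τ|)` is not a maximizer for any
`p > 2`. (3) If `α = 0` and `β γ ≠ 0` then `exp(-|τ|)` is a maximizer for at most finitely many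
`p > 0`. -/
theorem result (d : ℕ) (hd : 1 ≤ d) :
    (∀ α β γ p : ℝ, |α| ≠ |β| → 2 < p → ∀ f : Pt d → ℂ,
      Integrable f (sectionMeasure α β γ d) → IsMaximizer α β γ p f →
      ∃ θ : ℂ, ‖θ‖ = 1 ∧ ∀ᵐ ζ ∂(sectionMeasure α β γ d),
        (starRingEnd ℂ) (f (refl α β γ ζ)) = θ * f ζ) ∧
    (∀ α β γ p : ℝ, α ≠ 0 → β ≠ 0 → γ ≠ 0 → |α| ≠ |β| → 2 < p →
      ¬ IsMaximizer α β γ p (expTau : Pt d → ℂ)) ∧
    ∀ β γ : ℝ, β ≠ 0 → γ ≠ 0 →
      {p : ℝ | 0 < p ∧ IsMaximizer 0 β γ p (expTau : Pt d → ℂ)}.Finite := by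
  have hR := SymM.p_REFL
  have hC := SymM.p_CONT
  have hS := SymM.p_SYM (SymM.p_STAR hR) hC (SymM.p_POS hC) SymM.p_EQ
  have hL := SymM.p_LONE
  have hH := SymM.p_HYP
  refine ⟨fun α β γ p h1 h2 f h3 h4 => hS d α β γ p hd h1 h2 f h3 h4,
    fun α β γ p h1 h2 h3 h4 h5 => SymM.p_OBL hS hL d α β γ p hd h1 h2 h3 h4 h5,
    fun β γ h1 h2 => SymM.p_FIN (SymM.p_EL (SymM.p_NRM hR) hL) (SymM.p_UPR hH hL)
      (SymM.p_GT hH (SymM.p_IX SymM.p_CV SymM.p_ID)) (SymM.p_LRHO SymM.p_SQ) SymM.p_MEL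
      SymM.p_LARGE (SymM.p_KNAPP hH) hL d β γ hd h1 h2⟩

end Pool.Agent.Results.MP_9044d4_an.SymmetricMaximizers
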